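import Pool.Agent.Y6.H.Stm

/-!
# HR-AEX: small divisors for independent uniformly distributed coefficients
-/

set_option autoImplicit false

namespace Pool.Agent.Y64.HR.AEX

open Set Filter Topology MeasureTheory ProbabilityTheory
open Pool.Agent.Y6.H (unif S_AEX)

instance unif_prob : IsProbabilityMeasure unif := by
  constructor
  unfold unif
  rw [Measure.smul_apply, Measure.restrict_apply MeasurableSet.univ, univ_inter, Real.volume_Icc]
  rw [show (1 : ℝ) - -1 = 2 by norm_num, show ENNReal.ofReal 2 = 2 by norm_num, smul_eq_mul]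
  exact ENNReal.inv_mul_cancel (by norm_num) (by norm_num)

theorem unif_slab {c : ℝ} (hc : c ≠ 0) (y s : ℝ) :
    unif {x : ℝ | |c * x + y| ≤ s} ≤ ENNReal.ofReal (s / |c|) := by
  have hc0 : 0 < |c| := abs_pos.2 hc
  have hsub : {x : ℝ | |c * x + y| ≤ s} ⊆ Icc (-(y / c) - s / |c|) (-(y / c) + s / |c|) := by
    intro x hx
    have hx' : |c * x + y| ≤ s := hx
    have h1 : |x + y / c| ≤ s / |c| := by
      rw [le_div_iff₀ hc0, ← abs_mul]
      have : (x + y / c) * c = c * x + y := by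
        rw [add_mul, div_mul_cancel₀ _ hc]
        ring
      rw [this]
      exact hx'
    have h2 := abs_le.1 h1
    constructor <;> linarith [h2.1, h2.2]
  refine (measure_mono hsub).trans ?_
  unfold unif
  rw [Measure.smul_apply, smul_eq_mul]
  refine (mul_le_mul_right (Measure.restrict_apply_le _ _) _).trans ?_
  rw [Real.volume_Icc, show -(y / c) + s / |c| - (-(y / c) - s / |c|) = 2 * (s / |c|) by ring,
    ENNReal.ofReal_mul (by norm_num), show ENNReal.ofReal 2 = 2 by norm_num, ← mul_assoc,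
    ENNReal.inv_mul_cancel (by norm_num) (by norm_num), one_mul]

theorem slab {ι : Type} (J : Finset ι) (c : ι → ℝ) {j₀ : ι} (hj : j₀ ∈ J) (hc : c j₀ ≠ 0)
    (r s : ℝ) :
    (Measure.infinitePi fun _ : ι => unif) {X | |∑ j ∈ J, c j * X j + r| ≤ s} ≤
      ENNReal.ofReal (s / |c j₀|) := by
  classical
  obtain ⟨μ, hμ⟩ : ∃ μ : Measure (ι → ℝ), μ = Measure.infinitePi fun _ : ι => unif := ⟨_, rfl⟩
  have hp : IsProbabilityMeasure μ := by rw [hμ]; infer_instance
  rw [← hμ]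
  have hind : iIndepFun (fun (j : ι) (X : ι → ℝ) => c j * X j) μ := by
    rw [hμ]
    exact iIndepFun_infinitePi (X := fun j (x : ℝ) => c j * x) (by fun_prop)
  have h1 := hind.indepFun_finsetSum_of_notMem (fun j => by fun_prop)
    (Finset.notMem_erase j₀ J)
  obtain ⟨Y, hY⟩ : ∃ Y : (ι → ℝ) → ℝ,
      Y = ∑ j ∈ J.erase j₀, (fun X : ι → ℝ => c j * X j) := ⟨_, rfl⟩
  obtain ⟨Z, hZ⟩ : ∃ Z : (ι → ℝ) → ℝ, Z = fun X => c j₀ * X j₀ := ⟨_, rfl⟩
  have h2 : IndepFun Y Z μ := by rw [hY, hZ]; exact h1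
  have mY : Measurable Y := by
    have hY' : Y = fun X => ∑ j ∈ J.erase j₀, c j * X j := by
      rw [hY]
      funext X
      rw [Finset.sum_apply]
    rw [hY']
    fun_prop
  have mZ : Measurable Z := by rw [hZ]; fun_prop
  have hS : MeasurableSet {p : ℝ × ℝ | |p.2 + (p.1 + r)| ≤ s} :=
    measurableSet_le (by fun_prop) measurable_const
  have hset : {X : ι → ℝ | |∑ j ∈ J, c j * X j + r| ≤ s} =
      (fun X => (Y X, Z X)) ⁻¹' {p : ℝ × ℝ | |p.2 + (p.1 + r)| ≤ s} := by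
    ext X
    rw [Set.mem_preimage, Set.mem_ofPred_eq, Set.mem_ofPred_eq, hY, hZ]
    simp only [Finset.sum_apply]
    rw [← Finset.add_sum_erase J (fun j => c j * X j) hj, add_assoc]
  have hpY : IsProbabilityMeasure (μ.map Y) := Measure.isProbabilityMeasure_map mY.aemeasurable
  have hpZ : IsProbabilityMeasure (μ.map Z) := Measure.isProbabilityMeasure_map mZ.aemeasurable
  rw [hset, ← Measure.map_apply (mY.prodMk mZ) hS,
    h2.map_prod_eq_prod_map_map mY.aemeasurable mZ.aemeasurable, Measure.prod_apply hS]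
  refine (lintegral_mono (g := fun _ => ENNReal.ofReal (s / |c j₀|)) fun y => ?_).trans ?_
  · show (μ.map Z) (Prod.mk y ⁻¹' {p : ℝ × ℝ | |p.2 + (p.1 + r)| ≤ s}) ≤ _
    have hS2 : MeasurableSet (Prod.mk y ⁻¹' {p : ℝ × ℝ | |p.2 + (p.1 + r)| ≤ s}) :=
      measurable_prodMk_left hS
    rw [Measure.map_apply mZ hS2]
    have hS3 : MeasurableSet {x : ℝ | |c j₀ * x + (y + r)| ≤ s} :=
      measurableSet_le (by fun_prop) measurable_const
    have e : Z ⁻¹' (Prod.mk y ⁻¹' {p : ℝ × ℝ | |p.2 + (p.1 + r)| ≤ s}) =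
        (fun X : ι → ℝ => X j₀) ⁻¹' {x : ℝ | |c j₀ * x + (y + r)| ≤ s} := by
      rw [hZ]
      rfl
    rw [e, ← Measure.map_apply (measurable_pi_apply j₀) hS3, hμ, Measure.infinitePi_map_eval]
    exact unif_slab hc _ _
  · rw [lintegral_const, measure_univ, mul_one]

theorem t_AEX : Pool.Agent.Y6.H.S_AEX := by
  classical
  intro I ι _ J c j₀ r δ hδ hJ hS
  have hpos : ∀ τ, 0 < |c τ (j₀ τ)| := fun τ => abs_pos.2 (hJ τ).2
  have hnn : ∀ τ, 0 ≤ δ τ / |c τ (j₀ τ)| := fun τ => div_nonneg (hδ τ) (hpos τ).le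
  obtain ⟨S, hSd⟩ : ∃ S : ℝ, S = ∑' τ, δ τ / |c τ (j₀ τ)| := ⟨_, rfl⟩
  have hbad : (Measure.infinitePi fun _ : ι => unif) {X : ι → ℝ |
      ∀ κ : ℝ, 0 < κ → ∃ τ, |∑ j ∈ J τ, c τ j * X j + r τ| < κ * δ τ} = 0 := by
    have hκ : ∀ κ : ℝ, 0 < κ → (Measure.infinitePi fun _ : ι => unif) {X : ι → ℝ |
        ∀ κ : ℝ, 0 < κ → ∃ τ, |∑ j ∈ J τ, c τ j * X j + r τ| < κ * δ τ} ≤
        ENNReal.ofReal (κ * S) := by
      intro κ hκ
      have hcov : {X : ι → ℝ |
          ∀ κ : ℝ, 0 < κ → ∃ τ, |∑ j ∈ J τ, c τ j * X j + r τ| < κ * δ τ} ⊆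
          ⋃ τ, {X : ι → ℝ | |∑ j ∈ J τ, c τ j * X j + r τ| ≤ κ * δ τ} := by
        intro X hX
        obtain ⟨τ, hτ⟩ := hX κ hκ
        exact mem_iUnion.2 ⟨τ, hτ.le⟩
      refine (measure_mono hcov).trans ((measure_iUnion_le _).trans ?_)
      refine (ENNReal.tsum_le_tsum fun τ => slab (J τ) (c τ) (hJ τ).1 (hJ τ).2 (r τ)
        (κ * δ τ)).trans ?_
      have h1 : ∀ τ, κ * δ τ / |c τ (j₀ τ)| = κ * (δ τ / |c τ (j₀ τ)|) := by
        intro τ
        ring
      simp only [h1]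
      rw [← ENNReal.ofReal_tsum_of_nonneg (fun τ => mul_nonneg hκ.le (hnn τ)) (hS.mul_left _),
        tsum_mul_left, ← hSd]
    have hlim : Tendsto (fun n : ℕ => ENNReal.ofReal ((1 / ((n : ℝ) + 1)) * S)) atTop (𝓝 0) := by
      rw [← ENNReal.ofReal_zero]
      refine (ENNReal.continuous_ofReal.tendsto 0).comp ?_
      have := (tendsto_one_div_add_atTop_nhds_zero_nat (𝕜 := ℝ)).mul_const S
      rwa [zero_mul] at this
    refine le_antisymm (ge_of_tendsto' hlim fun n => hκ _ (by positivity)) zero_le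
  rw [ae_iff]
  refine measure_mono_null ?_ hbad
  intro X hX κ hκ
  by_contra hc
  push Not at hc
  exact hX ⟨κ, hκ, hc⟩

end Pool.Agent.Y64.HR.AEX
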